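import Pool.Agent.helper52.WP.SpecB

set_option autoImplicit false

open Complex Metric Set Filter Topology MeasureTheory
open V3S (UF)
open WP
open PPS (pre TT fd)
open XPS (Df er)

noncomputable section

namespace WPB

/-- `t (1 + |log t|) ≤ 4` for `0 < t ≤ 2`. -/
theorem VLC_log (t : ℝ) (h0 : 0 < t) (h2 : t ≤ 2) : t * (1 + |Real.log t|) ≤ 4 := by
  rcases le_total t 1 with h1 | h1
  · have hl : Real.log t ≤ 0 := Real.log_nonpos h0.le h1
    rw [abs_of_nonpos hl]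
    have h3 := Real.one_sub_inv_le_log_of_pos h0
    have h4 : 1 + -Real.log t ≤ t⁻¹ := by linarith
    have h5 : t * (1 + -Real.log t) ≤ t * t⁻¹ := mul_le_mul_of_nonneg_left h4 h0.le
    rw [mul_inv_cancel₀ h0.ne'] at h5
    linarith
  · have hl : 0 ≤ Real.log t := Real.log_nonneg h1
    rw [abs_of_nonneg hl]
    have h3 := Real.log_le_sub_one_of_pos h0
    nlinarith

theorem VLC : VLC_stmt := by
  intro M v hM hCR w ρ hρ
  have hρc : (ρ : ℂ) ≠ 0 := by exact_mod_cast hρ.ne'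
  have hρn : ‖(ρ : ℂ)‖ = ρ := by simp [abs_of_pos hρ]
  set κ : ℂ := (v (w + ρ) - v w) / ρ with hκ
  have key : ∀ z ∈ closedBall w (2 * ρ), ‖v z - v w - κ * (z - w)‖ ≤ 4 * M * ρ := by
    intro z hz
    rw [mem_closedBall, dist_eq_norm] at hz
    by_cases hzw : z = w
    · subst hzw
      simp
      positivity
    · have ha : z - w ≠ 0 := sub_ne_zero.mpr hzw
      have h1 := hCR w (z - w) ρ ha hρc (mem_univ _) (mem_univ _) (mem_univ _)
      rw [add_sub_cancel, hρn, ← hκ] at h1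
      have hpos : 0 < ‖z - w‖ := norm_pos_iff.mpr ha
      have h2 : v z - v w - κ * (z - w) = (z - w) * ((v z - v w) / (z - w) - κ) := by
        field_simp
      rw [h2, norm_mul]
      have h3 := VLC_log (‖z - w‖ / ρ) (div_pos hpos hρ) (by rw [div_le_iff₀ hρ]; exact hz)
      have h4 : ‖z - w‖ * (M * (1 + |Real.log (‖z - w‖ / ρ)|)) ≤ 4 * M * ρ := by
        have h5 : ‖z - w‖ = (‖z - w‖ / ρ) * ρ := by field_simp
        calc ‖z - w‖ * (M * (1 + |Real.log (‖z - w‖ / ρ)|))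
            = M * ρ * ((‖z - w‖ / ρ) * (1 + |Real.log (‖z - w‖ / ρ)|)) := by
              field_simp
          _ ≤ M * ρ * 4 := mul_le_mul_of_nonneg_left h3 (by positivity)
          _ = 4 * M * ρ := by ring
      exact (mul_le_mul_of_nonneg_left h1 hpos.le).trans h4
  refine ⟨κ, fun z hz => (key z hz).trans (by nlinarith [mul_nonneg hM hρ.le]), ?_⟩
  intro z hz h hh hhρ
  rw [mem_ball, dist_eq_norm] at hz
  have hhpos : 0 < ‖h‖ := norm_pos_iff.mpr hh
  have h1 := hCR z h ρ hh hρc (mem_univ _) (mem_univ _) (mem_univ _)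
  rw [hρn] at h1
  have hL : |Real.log (‖h‖ / ρ)| = Real.log (ρ / ‖h‖) := by
    have h2 : Real.log (‖h‖ / ρ) = -Real.log (ρ / ‖h‖) := by
      rw [← Real.log_inv, inv_div]
    rw [h2, abs_neg, abs_of_nonneg]
    exact Real.log_nonneg (by rw [le_div_iff₀ hhpos]; linarith)
  have hL0 : 0 ≤ Real.log (ρ / ‖h‖) :=
    Real.log_nonneg (by rw [le_div_iff₀ hhpos]; linarith)
  rw [hL] at h1
  have k1 := key z (by rw [mem_closedBall, dist_eq_norm]; linarith)
  have k2 := key (z + ρ) (by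
    rw [mem_closedBall, dist_eq_norm]
    calc ‖z + ρ - w‖ = ‖(z - w) + ρ‖ := by ring_nf
      _ ≤ ‖z - w‖ + ‖(ρ : ℂ)‖ := norm_add_le _ _
      _ ≤ 2 * ρ := by rw [hρn]; linarith)
  have h3 : ‖(v (z + ρ) - v z) / ρ - κ‖ ≤ 8 * M := by
    have h4 : (v (z + ρ) - v z) / ρ - κ =
        ((v (z + ρ) - v w - κ * (z + ρ - w)) - (v z - v w - κ * (z - w))) / ρ := by
      field_simp
      ring
    rw [h4, norm_div, hρn, div_le_iff₀ hρ]
    calc ‖(v (z + ρ) - v w - κ * (z + ρ - w)) - (v z - v w - κ * (z - w))‖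
        ≤ ‖v (z + ρ) - v w - κ * (z + ρ - w)‖ + ‖v z - v w - κ * (z - w)‖ := norm_sub_le _ _
      _ ≤ 4 * M * ρ + 4 * M * ρ := add_le_add k2 k1
      _ = 8 * M * ρ := by ring
  have h5 : (v (z + h) - κ * h) - v z =
      h * (((v (z + h) - v z) / h - (v (z + ρ) - v z) / ρ) + ((v (z + ρ) - v z) / ρ - κ)) := by
    rw [sub_add_sub_cancel]
    field_simp
    ring
  rw [h5, norm_mul]
  have h6 : ‖((v (z + h) - v z) / h - (v (z + ρ) - v z) / ρ) + ((v (z + ρ) - v z) / ρ - κ)‖ ≤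
      M * (1 + Real.log (ρ / ‖h‖)) + 8 * M := (norm_add_le _ _).trans (add_le_add h1 h3)
  calc ‖h‖ * ‖((v (z + h) - v z) / h - (v (z + ρ) - v z) / ρ) + ((v (z + ρ) - v z) / ρ - κ)‖
      ≤ ‖h‖ * (M * (1 + Real.log (ρ / ‖h‖)) + 8 * M) := mul_le_mul_of_nonneg_left h6 hhpos.le
    _ ≤ 10 * M * ‖h‖ * (1 + Real.log (ρ / ‖h‖)) := by
      have h7 : 0 ≤ M * ‖h‖ := mul_nonneg hM hhpos.le
      have h8 : 0 ≤ M * ‖h‖ * Real.log (ρ / ‖h‖) := mul_nonneg h7 hL0
      nlinarith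

end WPB
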